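import Mathlib
import Pool.Agent.MP_40890c_pr.Prob

open Filter Topology MeasureTheory ProbabilityTheory
open scoped ENNReal

namespace Pool.Agent.Results.MP_40890c_pr.WaitingTime

/-- The lattice paths `w(0), ..., w(n)` with `w(0) = 0` and increments `1` or `-1`. -/
def SW (n : ℕ) : Set (Fin (n + 1) → ℤ) :=
  {w | w 0 = 0 ∧ ∀ i : Fin n, w i.succ - w i.castSucc = 1 ∨ w i.succ - w i.castSucc = -1}

/-- The first passage walks of length `n` to the level `a`. -/
def firstPassage (n : ℕ) (a : ℤ) : Set (Fin (n + 1) → ℤ) :=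
  {w | w ∈ SW n ∧ w (Fin.last n) = a ∧ ∀ i : Fin n, w (Fin.last n) < w i.castSucc}

/-- The random walk with steps `X 0, X 1, ...`. -/
def walk {Ω : Type*} (X : ℕ → Ω → ℤ) (m : ℕ) (w : Ω) : ℤ := ∑ i ∈ Finset.range m, X i w

/-- The waiting time until an element of `A` occurs in the walk (infinite if none occurs). -/
noncomputable def waitingTime {Ω : Type*} (X : ℕ → Ω → ℤ) (n : ℕ) (A : Set (Fin (n + 1) → ℤ))
    (w : Ω) : ℝ≥0∞ :=
  ⨅ (m : ℕ) (_ : n ≤ m ∧ (fun i : Fin (n + 1) => walk X (m - n + i) w - walk X (m - n) w) ∈ A),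
    (m : ℝ≥0∞)

open Pool.Agent.MP_40890c_pr in
theorem result {Ω : Type*} [MeasurableSpace Ω] (P : Measure Ω) [IsProbabilityMeasure P]
    (X : ℕ → Ω → ℤ) (hX : ∀ i, Measurable (X i)) (hind : iIndepFun X P)
    (h1 : ∀ i, P (X i ⁻¹' {1}) = 1 / 2) (h2 : ∀ i, P (X i ⁻¹' {-1}) = 1 / 2)
    (lam : ℝ) (hlam : lam < 0) (a : ℕ → ℤ) (hpar : ∀ n : ℕ, Even (a n - n))
    (ha : Tendsto (fun n : ℕ => (a n : ℝ) / √n) atTop (𝓝 lam)) :
    Tendsto
      (fun n : ℕ => (∫⁻ w, waitingTime X n (firstPassage n (a n)) w ∂P) /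
        ENNReal.ofReal (n * Real.log n))
      atTop (𝓝 (ENNReal.ofReal (Real.exp (lam ^ 2 / 2) / (2 * √(2 * Real.pi) * |lam|)))) := by
  have hpi : (0 : ℝ) < √Real.pi := Real.sqrt_pos.2 Real.pi_pos
  have hl : 0 < -lam := neg_pos.2 hlam
  obtain ⟨hs, ht⟩ := main_asymp a _ (by positivity)
    (tendsto_hit a (fun n => by obtain ⟨k, hk⟩ := hpar n; omega) lam hlam ha)
  have e : 1 / (2 * Real.pi) / (-lam * (√2 / √Real.pi * Real.exp (-(lam ^ 2 / 2)))) =
      Real.exp (lam ^ 2 / 2) / (2 * √(2 * Real.pi) * |lam|) := by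
    rw [abs_of_neg hlam, Real.sqrt_mul (by norm_num), Real.exp_neg]
    have h3 : Real.pi = √Real.pi * √Real.pi := (Real.mul_self_sqrt Real.pi_pos.le).symm
    have h4 : (0 : ℝ) < √2 := by positivity
    set s := √Real.pi
    rw [h3]
    field_simp
  rw [e] at ht
  refine (ENNReal.tendsto_ofReal ht).congr' ?_
  filter_upwards [hs, eventually_gt_atTop 0, tendsto_log_nat.eventually (eventually_gt_atTop 0)]
    with n hn hn0 hlog
  rw [ENNReal.ofReal_div_of_pos (by positivity)]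
  congr 1
  symm
  refine lintegral_wait hX hind h1 h2 n (a n) _ (fun w hw m => ?_) hn
  rw [occ_steps]
  refine and_congr_right fun hnm => ?_
  simp only [firstPassage, SW, Set.mem_ofPred_eq, walk, Fin.val_last, Fin.val_succ,
    Fin.val_castSucc]
  constructor
  · rintro ⟨-, h3, h4⟩
    exact ⟨h3, fun i hi => h3 ▸ h4 ⟨i, hi⟩⟩
  · rintro ⟨h3, h4⟩
    refine ⟨⟨by simp, fun i => ?_⟩, h3, fun i => h3 ▸ h4 i i.2⟩
    rw [← add_assoc, Finset.sum_range_succ]
    have := hw (m - n + i)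
    omega

end Pool.Agent.Results.MP_40890c_pr.WaitingTime
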